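import Pool.Agent.Lib.MP_401270_nt.Final2

set_option autoImplicit false

/-!
# The average of the class numbers of indefinite binary quadratic forms

`S(N) = sum_{D < N} h_D` (nonsquare `D`, all primitive forms, proper equivalence, exactly as in the
frozen statement `S16681`) is at most `C(ε) N^(3/2) / (log N)^(3/2 - ε)` for every `ε > 0`.
-/

open Classical

namespace Pool.Agent.Results.MP_401270_nt.ClassNumberSum

theorem result : ∀ ε : ℝ, 0 < ε → ∃ C : ℝ, ∀ N : ℕ, 2 ≤ N →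
    ((∑ D ∈ Finset.range N,
        (if IsSquare D then 0 else
          Nat.card (Quot (fun (u v : {t : ℤ × ℤ × ℤ //
              t.2.1 ^ 2 - 4 * t.1 * t.2.2 = (D : ℤ) ∧
              Int.gcd (Int.gcd t.1 t.2.1 : ℤ) t.2.2 = 1}) =>
            ∃ p q r s : ℤ, p * s - q * r = 1 ∧
              v.1.1 = u.1.1 * p ^ 2 + u.1.2.1 * p * r + u.1.2.2 * r ^ 2 ∧
              v.1.2.1 = 2 * u.1.1 * p * q + u.1.2.1 * (p * s + q * r)
                          + 2 * u.1.2.2 * r * s ∧
              v.1.2.2 = u.1.1 * q ^ 2 + u.1.2.1 * q * s + u.1.2.2 * s ^ 2))) : ℕ) : ℝ) ≤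
      C * ((N : ℝ) ^ (3 / 2 : ℝ) / (Real.log N) ^ (3 / 2 - ε)) := by
  intro ε hε
  obtain ⟨C, h⟩ := Pool.Agent.Lib.MP401270.classSum ε hε
  refine ⟨C, fun N hN => ?_⟩
  exact h N hN

end Pool.Agent.Results.MP_401270_nt.ClassNumberSum
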