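import Pool.Agent.Lib.MP_401270_nt.Final

set_option autoImplicit false

/-!
# Almost all fundamental solutions of the Pell equation are larger than every power of `D`

For every `0 < ε < 1/2` and all large `N`, all but at most `N exp(-(log N)^ε)` of the integers
`D < N` have the property that every positive solution of `t^2 - D s^2 = 4` satisfies
`(t + s sqrt D) / 2 > exp((log N)^(3/2 - ε))`.
-/

namespace Pool.Agent.Results.MP_401270_nt.FundamentalSolutions

theorem result : ∀ ε : ℝ, 0 < ε → ε < 1 / 2 → ∃ N₀ : ℕ, ∀ N : ℕ, N₀ ≤ N →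
    (Nat.card {D : ℕ // D < N ∧ ∃ t s : ℕ, 1 ≤ s ∧ t ^ 2 = D * s ^ 2 + 4 ∧
      ((t : ℝ) + s * √D) / 2 ≤ Real.exp ((Real.log N) ^ (3 / 2 - ε))} : ℝ) ≤
    N * Real.exp (-(Real.log N) ^ ε) := by
  intro ε h1 h2
  obtain ⟨N₀, h⟩ := Pool.Agent.Lib.MP401270.bad ε h1 h2
  refine ⟨N₀, fun N hN => ?_⟩
  have hc : Nat.card {D : ℕ // D < N ∧ ∃ t s : ℕ, 1 ≤ s ∧ t ^ 2 = D * s ^ 2 + 4 ∧
      ((t : ℝ) + s * √D) / 2 ≤ Real.exp ((Real.log N) ^ (3 / 2 - ε))} =
      (Pool.Agent.Lib.MP401270.Small N (Real.exp ((Real.log N) ^ (3 / 2 - ε)))).card := by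
    rw [← Nat.card_eq_finsetCard]
    exact Nat.card_congr (Equiv.subtypeEquivRight fun D => by
      simp only [Pool.Agent.Lib.MP401270.Small, Finset.mem_filter, Finset.mem_range])
  rw [hc]
  exact h N hN

end Pool.Agent.Results.MP_401270_nt.FundamentalSolutions
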